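import Pool.Agent.H80.HS.Targets

/-! # Gaussian integral on the Heisenberg group -/

namespace Pool.Agent.H89.HS.G2
open MeasureTheory Set Pool.Agent.H80.HS
open scoped ContDiff ENNReal

theorem g2 : T_G2 := by
  intro n q g hq _ _
  have h1 : ∀ z : H n, (Real.exp (-(‖z.1‖ ^ 2 + ‖z.2.1‖ ^ 2) / 2) * |g z.2.2|) ^ q =
      Real.exp (-(q / 2) * ‖z.1‖ ^ 2) *
        (fun w : V n × ℝ => Real.exp (-(q / 2) * ‖w.1‖ ^ 2) * |g w.2| ^ q) z.2 := by
    intro z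
    rw [Real.mul_rpow (Real.exp_pos _).le (abs_nonneg _), ← Real.exp_mul]
    simp only []
    rw [← mul_assoc, ← Real.exp_add]
    congr 2
    ring
  simp_rw [h1]
  have h2 : ∫ z : H n, Real.exp (-(q / 2) * ‖z.1‖ ^ 2) *
        (fun w : V n × ℝ => Real.exp (-(q / 2) * ‖w.1‖ ^ 2) * |g w.2| ^ q) z.2 =
      (∫ x : V n, Real.exp (-(q / 2) * ‖x‖ ^ 2)) *
        ∫ w : V n × ℝ, Real.exp (-(q / 2) * ‖w.1‖ ^ 2) * |g w.2| ^ q :=
    integral_prod_mul (μ := (volume : Measure (V n))) (ν := (volume : Measure (V n × ℝ)))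
      (fun x : V n => Real.exp (-(q / 2) * ‖x‖ ^ 2))
      (fun w : V n × ℝ => Real.exp (-(q / 2) * ‖w.1‖ ^ 2) * |g w.2| ^ q)
  have h3 : ∫ w : V n × ℝ, Real.exp (-(q / 2) * ‖w.1‖ ^ 2) * |g w.2| ^ q =
      (∫ x : V n, Real.exp (-(q / 2) * ‖x‖ ^ 2)) * ∫ t : ℝ, |g t| ^ q :=
    integral_prod_mul (μ := (volume : Measure (V n))) (ν := (volume : Measure ℝ))
      (fun x : V n => Real.exp (-(q / 2) * ‖x‖ ^ 2)) (fun t : ℝ => |g t| ^ q)
  have h4 : ∫ x : V n, Real.exp (-(q / 2) * ‖x‖ ^ 2) = (Real.pi / (q / 2)) ^ ((n : ℝ) / 2) := by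
    rw [GaussianFourier.integral_rexp_neg_mul_sq_norm (V := V n) (by positivity : 0 < q / 2)]
    simp
  have h5 : (Real.pi / (q / 2)) ^ ((n : ℝ) / 2) * (Real.pi / (q / 2)) ^ ((n : ℝ) / 2) =
      (2 * Real.pi / q) ^ n := by
    rw [← Real.rpow_add (by positivity), add_halves, Real.rpow_natCast]
    congr 1
    field_simp
  refine h2.trans ?_
  rw [h3, h4, ← mul_assoc, h5]

end Pool.Agent.H89.HS.G2
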